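import Pool.Agent.Helper2.RR.SP

/-!
A stable block with an alternating form has a simple Lie algebra, if a subgroup of the symmetries,
of index prime to the number of the simple factors, satisfies the local condition.
-/

set_option linter.unusedSimpArgs false
set_option linter.unusedSectionVars false
set_option linter.unusedVariables false

open Module

namespace MTP

variable {K : Type*} [Field K] {V : Type*} [AddCommGroup V] [Module K V] [FiniteDimensional K V]
variable {ω : LinearMap.BilinForm K V} {L I M : Submodule K (Module.End K V)}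
  {S : Set (Module.End K V)}

/-- The number of the minimal ideals in a sum of ideals of the class `QI`. -/
lemma Dec.ncard [IsAlgClosed K] [CharZero K] (hL : IrrSymp ω L) (hω : ω.Nondegenerate) {ρ : ℕ}
    {ε : K} (hV : Nontrivial V) : ∀ (n : ℕ) (M : Submodule K (Module.End K V)),
    Dec ω L ρ ε n M → IsId L M ∧ {J | IsMin L J ∧ J ≤ M}.ncard = n := by
  intro n
  induction n with
  | zero =>
    intro M hM
    change M = ⊥ at hM
    subst hM
    refine ⟨⟨bot_le, ?_⟩, ?_⟩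
    · intro x hx y hy
      rw [Submodule.mem_bot] at *
      rw [hy]; simp
    · have : {J | IsMin L J ∧ J ≤ (⊥ : Submodule K (Module.End K V))} = ∅ := by
        rw [Set.eq_empty_iff_forall_notMem]
        rintro J ⟨hJ, hJ'⟩
        exact hJ.2.1 (le_bot_iff.mp hJ')
      rw [this, Set.ncard_empty]
  | succ n ih =>
    rintro M ⟨I, M', hI, hM', hinf, rfl⟩
    obtain ⟨hM'id, hcard⟩ := ih M' hM'
    have hImin : IsMin L I := ⟨hI.1, hI.2.1, hI.2.2.1⟩
    refine ⟨sup_isId hI.1 hM'id, ?_⟩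
    have hfin : {J | IsMin L J ∧ J ≤ M'}.Finite := by
      have h1 : {J | IsMin L J}.Finite := hL.finite_min hω
      exact h1.subset fun J hJ => hJ.1
    have hset : {J | IsMin L J ∧ J ≤ I ⊔ M'} = insert I {J | IsMin L J ∧ J ≤ M'} := by
      ext J
      rw [Set.mem_insert_iff]
      constructor
      · rintro ⟨hJ, hJM⟩
        by_cases hJI : J = I
        · exact Or.inl hJI
        · right
          refine ⟨hJ, ?_⟩
          intro x hx
          have hinf' : I ⊓ J = ⊥ := by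
            by_contra h
            exact hJI (hImin.eq hJ h).symm
          obtain ⟨i, hi, m, hm, hxe⟩ := Submodule.mem_sup.mp (hJM hx)
          have h1 : i = 0 := by
            apply hL.inf_orth hω hI.1 hi
            have h2 := (orth L I).sub_mem (hL.le_orth hω hI.1 hJ.1 hinf' hx)
              (hL.le_orth hω hI.1 hM'id hinf hm)
            rwa [← hxe, add_sub_cancel_right] at h2
          rw [← hxe, h1, zero_add]
          exact hm
      · rintro (rfl | ⟨hJ, hJM⟩)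
        · exact ⟨hImin, le_sup_left⟩
        · exact ⟨hJ, hJM.trans le_sup_right⟩
    rw [hset, Set.ncard_insert_of_notMem _ hfin, hcard]
    rintro ⟨-, h⟩
    apply hI.2.1
    rw [← hinf]
    exact (inf_eq_left.mpr h).symm

/-- The structure of Lie algebras which are simple up to symmetries, with the number of the minimal
ideals. -/
theorem IrrSymp.exact_count [IsAlgClosed K] [CharZero K] (hL : IrrSymp ω L) (hω : ω.Nondegenerate)
    (halt : ω.IsAlt) {T : Set (Module.End K V ≃+* Module.End K V)} (hT : ∀ τ ∈ T, Tw L τ)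
    (hS : TSmp L T) {x : Module.End K V} (hx : x ∈ L) (hxx : x * x = 0) (hx0 : x ≠ 0) :
    ∃ k d : ℕ, Odd k ∧ finrank K V = d ^ k ∧ {I | IsMin L I}.ncard = k ∧ (k = 1 → Smp L) := by
  have hV : Nontrivial V := by
    by_contra hcon
    rw [not_nontrivial_iff_subsingleton] at hcon
    exact hx0 (LinearMap.ext fun v => Subsingleton.elim _ _)
  have hL0 : L ≠ ⊥ := by
    intro h
    rw [h, Submodule.mem_bot] at hx
    exact hx0 hx
  have hLid : IsId L L := ⟨le_rfl, hL.br⟩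
  obtain ⟨I0, -, hI0, hI00, hI0min⟩ := exists_min_ideal hLid hL0
  have P := hL.pr (fun x hx y hy => hL.orth_comm hω hI0 hx hy)
    (fun z hz => hL.sup_orth hω hI0 hz)
  obtain ⟨ε, a0, hε, ha0⟩ := exists_mark hω halt (fun x hx => hL.sk x (hI0.1 hx)) P hI00
  obtain ⟨d, hd, hW⟩ := P.iso ha0.mem ha0.ne ha0.ext
  obtain ⟨n0, h1, h2, -⟩ := hW ⊤ (fun _ _ _ _ => Submodule.mem_top)
  have hρ : finrank K V = rk a0 * d := by
    rw [finrank_top] at h1
    rw [h1, ← h2, Submodule.map_top]; rfl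
  have hQ0 : QI ω L (rk a0) ε I0 := ⟨hI0, hI00, hI0min, a0, ha0, rfl⟩
  -- the span of the class
  have hspan : L ≤ Submodule.span K {x | ∃ I, QI ω L (rk a0) ε I ∧ x ∈ I} := by
    have hid : IsId L (Submodule.span K {x | ∃ I, QI ω L (rk a0) ε I ∧ x ∈ I}) := by
      constructor
      · rw [Submodule.span_le]
        rintro x ⟨I, hI, hx⟩
        exact hI.1.1 hx
      · intro x hx y hy
        refine Submodule.span_induction ?_ ?_ ?_ ?_ hy
        · rintro z ⟨I, hI, hz⟩
          exact Submodule.subset_span ⟨I, hI, hI.1.2 x hx z hz⟩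
        · simp
        · intro u v _ _ hu hv
          have e : x * (u + v) - (u + v) * x = (x * u - u * x) + (x * v - v * x) := by
            rw [mul_add, add_mul]; abel
          rw [e]; exact Submodule.add_mem _ hu hv
        · intro c u _ hu
          rw [mul_smul_comm, smul_mul_assoc, ← smul_sub]
          exact Submodule.smul_mem _ _ hu
    rcases hS _ hid (by
      intro τ hτ y hy
      obtain ⟨σ, hσ⟩ := (hT τ hτ).semi
      refine Submodule.span_induction ?_ ?_ ?_ ?_ hy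
      · rintro z ⟨I, hI, hz⟩
        apply Submodule.subset_span
        refine ⟨_, hI.tw hω hL.sk hε (hT τ hτ) hσ, ?_⟩
        rw [mem_imT, RingEquiv.symm_apply_apply]
        exact hz
      · rw [map_zero]; exact Submodule.zero_mem _
      · intro u v _ _ hu hv
        rw [map_add]; exact Submodule.add_mem _ hu hv
      · intro c u _ hu
        rw [hσ]; exact Submodule.smul_mem _ _ hu) with h | h
    · exfalso
      apply hI00
      rw [eq_bot_iff, ← h]
      intro z hz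
      exact Submodule.subset_span ⟨I0, hQ0, hz⟩
    · exact h.ge
  obtain ⟨k, hk⟩ := Dec.exists hL hω hρ hV hspan
  obtain ⟨-, b, hb, hbr⟩ := Dec.main hL hω hρ hV k L hk
  -- the marked element has rank one
  obtain ⟨v, hv⟩ : ∃ v, b v ≠ 0 := by
    by_contra h
    push Not at h
    exact hb.ne (LinearMap.ext h)
  have hone : ∀ w, ∃ c : K, b w = c • b v := by
    intro w
    have htop : orb (alg L) (b v) = ⊤ := by
      rcases hL.irr (orb (alg L) (b v)) (by
        rintro z hz _ ⟨y, hy, rfl⟩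
        exact ⟨z * y, (alg L).mul_mem (le_alg hz) hy, rfl⟩) with h | h
      · exfalso
        have h1 : b v ∈ orb (alg L) (b v) := ⟨1, (alg L).one_mem, rfl⟩
        rw [h, Submodule.mem_bot] at h1
        exact hv h1
      · exact h
    have hw : w ∈ orb (alg L) (b v) := by rw [htop]; trivial
    obtain ⟨y, hy, hyw⟩ := mem_orb.mp hw
    obtain ⟨c, hc⟩ := hb.ext y hy
    refine ⟨c, ?_⟩
    rw [← hyw]
    exact congrArg (fun z : Module.End K V => z v) hc
  have hrb : rk b = 1 := by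
    have e : LinearMap.range b = Submodule.span K {b v} := by
      apply le_antisymm
      · rintro _ ⟨w, rfl⟩
        obtain ⟨c, hc⟩ := hone w
        rw [hc]
        exact Submodule.smul_mem _ _ (Submodule.mem_span_singleton_self _)
      · rw [Submodule.span_singleton_le_iff_mem]
        exact ⟨v, rfl⟩
    unfold rk
    rw [e]
    exact finrank_span_singleton hv
  rw [hrb, one_mul] at hbr
  -- the sign
  have hanti : ∀ u v : V, ω u v = - ω v u := fun u v => (halt.neg_eq v u).symm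
  have hsgn : ε ^ k ≠ 1 := by
    intro h
    have hadj := hb.adj
    rw [h, one_smul] at hadj
    have h0 : ∀ x, ω (b x) x = 0 := by
      intro x
      have h1 := hadj x x
      rw [hanti x] at h1
      have h2 : (2 : K) * ω (b x) x = 0 := by linear_combination h1
      exact (mul_eq_zero.mp h2).resolve_left two_ne_zero
    apply hv
    apply hω.1
    intro y
    by_contra hy
    have h1 := h0 v
    obtain ⟨c, hc⟩ := hone y
    have h2 := h0 y
    rw [hc, map_smul, LinearMap.smul_apply, smul_eq_mul] at h2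
    have hc0 : c = 0 := (mul_eq_zero.mp h2).resolve_right hy
    have h3 := h0 (v + y)
    rw [map_add b, hc, hc0, zero_smul, add_zero, map_add, h1, zero_add] at h3
    exact hy h3
  have hodd : Odd k := by
    rw [← Nat.not_even_iff_odd]
    intro hev
    apply hsgn
    rcases hε with h | h
    · rw [h, one_pow]
    · rw [h]; exact hev.neg_one_pow
  refine ⟨k, d, hodd, hbr.symm, ?_, ?_⟩
  · have h1 := (Dec.ncard hL hω hV k L hk).2
    rw [← h1]
    congr 1
    ext J
    exact ⟨fun h => ⟨h, h.1.1⟩, fun h => h.1⟩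
  · intro hk1
    subst hk1
    obtain ⟨I', M', hI', hM', -, hLe⟩ := hk
    change M' = ⊥ at hM'
    rw [hM', sup_bot_eq] at hLe
    intro M hM hMi
    by_cases hM0 : M = ⊥
    · exact Or.inl hM0
    · right
      rw [hLe]
      exact hI'.2.2.1 M (by rw [← hLe]; exact hM) ⟨hM, hMi⟩ hM0

end MTP

namespace AV

open MTP UN MTPairs

namespace IX

section map
variable {K : Type*} [Field K] {V : Type*} [AddCommGroup V] [Module K V] [FiniteDimensional K V]
  {W : Type*} [AddCommGroup W] [Module K W] [FiniteDimensional K W]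
  {B L : Submodule K (Module.End K V)} {ρ : Module.End K V →ₗ[K] Module.End K W}

lemma le_of_map (R : Rs B ρ) {I I' : Submodule K (Module.End K V)} (hI : I ≤ B) (hI' : I' ≤ B)
    (h : I.map ρ ≤ I'.map ρ) : I ≤ I' := by
  intro x hx
  obtain ⟨y, hy, hyx⟩ := h ⟨x, hx, rfl⟩
  rw [← SP.eq_of R (hI' hy) (hI hx) hyx]
  exact hy

lemma isId_map (R : Rs B ρ) (hLB : L ≤ B) {I : Submodule K (Module.End K V)} (hI : IsId L I) :
    IsId (L.map ρ) (I.map ρ) := by
  refine ⟨Submodule.map_mono hI.1, ?_⟩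
  rintro _ ⟨x, hx, rfl⟩ _ ⟨y, hy, rfl⟩
  refine ⟨x * y - y * x, hI.2 x hx y hy, ?_⟩
  rw [map_sub, R.hom x (hLB hx) y (hLB (hI.1 hy)), R.hom y (hLB (hI.1 hy)) x (hLB hx)]

lemma isId_comap (R : Rs B ρ) (hLB : L ≤ B) (hbr : ∀ x ∈ L, ∀ y ∈ L, x * y - y * x ∈ L)
    {J : Submodule K (Module.End K W)} (hJ : IsId (L.map ρ) J) :
    IsId L (L ⊓ J.comap ρ) ∧ (L ⊓ J.comap ρ).map ρ = J := by
  refine ⟨⟨inf_le_left, ?_⟩, ?_⟩
  · rintro x hx y ⟨hy, hyJ⟩
    refine ⟨hbr x hx y hy, ?_⟩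
    rw [SetLike.mem_coe, Submodule.mem_comap, map_sub, R.hom x (hLB hx) y (hLB hy),
      R.hom y (hLB hy) x (hLB hx)]
    exact hJ.2 _ ⟨x, hx, rfl⟩ _ hyJ
  · apply le_antisymm
    · rintro _ ⟨y, ⟨-, hy⟩, rfl⟩
      exact hy
    · intro z hz
      obtain ⟨y, hy, rfl⟩ := hJ.1 hz
      exact ⟨y, ⟨hy, hz⟩, rfl⟩

lemma isMin_map (R : Rs B ρ) (hLB : L ≤ B) (hbr : ∀ x ∈ L, ∀ y ∈ L, x * y - y * x ∈ L)
    {I : Submodule K (Module.End K V)} (hI : IsMin L I) : IsMin (L.map ρ) (I.map ρ) := by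
  refine ⟨isId_map R hLB hI.1, ?_, ?_⟩
  · intro h
    apply hI.2.1
    rw [eq_bot_iff]
    intro x hx
    have h1 : ρ x ∈ I.map ρ := ⟨x, hx, rfl⟩
    rw [h, Submodule.mem_bot] at h1
    rw [Submodule.mem_bot]
    exact R.inj x (hLB (hI.1.1 hx)) h1
  · intro J hJ hJi hJ0
    obtain ⟨h1, h2⟩ := isId_comap R hLB hbr hJi
    have h3 : L ⊓ J.comap ρ = I := by
      apply hI.2.2 _ _ h1
      · intro h
        apply hJ0
        rw [← h2, h, Submodule.map_bot]
      · apply le_of_map R (inf_le_left.trans hLB) (hI.1.1.trans hLB)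
        rw [h2]; exact hJ
    rw [← h2, h3]

lemma ncard_min_map (R : Rs B ρ) (hLB : L ≤ B)
    (hbr : ∀ x ∈ L, ∀ y ∈ L, x * y - y * x ∈ L) :
    {J | IsMin (L.map ρ) J}.ncard = {I | IsMin L I}.ncard := by
  have h1 : {J | IsMin (L.map ρ) J} = (fun I => Submodule.map ρ I) '' {I | IsMin L I} := by
    ext J
    constructor
    · intro hJ
      obtain ⟨h1, h2⟩ := isId_comap R hLB hbr hJ.1
      refine ⟨L ⊓ J.comap ρ, ⟨h1, ?_, ?_⟩, h2⟩
      · intro h
        apply hJ.2.1
        rw [← h2, h, Submodule.map_bot]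
      · intro I hI hIi hI0
        apply le_antisymm hI
        apply le_of_map R (inf_le_left.trans hLB) (hIi.1.trans hLB)
        rw [h2]
        refine le_of_eq (hJ.2.2 _ ?_ (isId_map R hLB hIi) ?_).symm
        · rw [← h2]; exact Submodule.map_mono hI
        · intro h
          apply hI0
          rw [eq_bot_iff]
          intro x hx
          have h1 : ρ x ∈ I.map ρ := ⟨x, hx, rfl⟩
          rw [h, Submodule.mem_bot] at h1
          rw [Submodule.mem_bot]
          exact R.inj x (hLB (hIi.1 hx)) h1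
    · rintro ⟨I, hI, rfl⟩
      exact isMin_map R hLB hbr hI
  rw [h1]
  apply Set.InjOn.ncard_image
  intro I hI I' hI' h
  exact le_antisymm (le_of_map R (hI.1.1.trans hLB) (hI'.1.1.trans hLB) (le_of_eq h))
    (le_of_map R (hI'.1.1.trans hLB) (hI.1.1.trans hLB) (le_of_eq h.symm))

end map

section act
variable {A X : Type*} [Group A] [Finite X] [MulAction A X]

/-- A subgroup of index prime to the number of points is transitive. -/
lemma trans_of_coprime (htr : ∀ x y : X, ∃ a : A, a • x = y) (H : Subgroup A)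
    (hco : Nat.Coprime (Nat.card X) H.index) (x y : X) : ∃ h ∈ H, h • x = y := by
  classical
  have horb : MulAction.orbit A x = Set.univ := by
    rw [Set.eq_univ_iff_forall]
    intro z
    obtain ⟨a, ha⟩ := htr x z
    exact ⟨a, ha⟩
  have h1 : (MulAction.stabilizer A x).index = Nat.card X := by
    rw [MulAction.index_stabilizer, horb, Set.ncard_univ]
  have h2 : (MulAction.stabilizer H x).index = (MulAction.orbit H x).ncard :=
    MulAction.index_stabilizer H x
  have h3 : (MulAction.stabilizer A x).subgroupOf H = MulAction.stabilizer H x := by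
    ext h
    rw [Subgroup.mem_subgroupOf, MulAction.mem_stabilizer_iff, MulAction.mem_stabilizer_iff]
    rfl
  have h4 : (MulAction.stabilizer A x).relIndex H * H.index =
      H.relIndex (MulAction.stabilizer A x) * (MulAction.stabilizer A x).index := by
    rw [← Subgroup.inf_relIndex_right, ← Subgroup.inf_relIndex_right H,
      Subgroup.relIndex_mul_index inf_le_right, Subgroup.relIndex_mul_index inf_le_right,
      inf_comm]
  have h5 : (MulAction.stabilizer A x).relIndex H = (MulAction.orbit H x).ncard := by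
    rw [← h2, ← h3]
    rfl
  rw [h5, h1] at h4
  have h6 : Nat.card X ∣ (MulAction.orbit H x).ncard := by
    apply hco.dvd_of_dvd_mul_right
    rw [h4]
    exact Dvd.intro_left _ rfl
  have h7 : 0 < (MulAction.orbit H x).ncard := by
    rw [Set.ncard_pos (Set.toFinite _)]
    exact ⟨x, MulAction.mem_orbit_self x⟩
  have h8 : MulAction.orbit H x = Set.univ := by
    apply Set.eq_of_subset_of_ncard_le (Set.subset_univ _) _ (Set.toFinite _)
    rw [Set.ncard_univ]
    exact Nat.le_of_dvd h7 h6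
  have h9 : y ∈ MulAction.orbit H x := by rw [h8]; trivial
  obtain ⟨h, hh⟩ := h9
  exact ⟨h.1, h.2, hh⟩

/-- Jordan's theorem for such subgroups. -/
lemma card_le_one (htr : ∀ x y : X, ∃ a : A, a • x = y) (H : Subgroup A)
    (hco : Nat.Coprime (Nat.card X) H.index) (hfix : ∀ h ∈ H, ∃ x : X, h • x = x) :
    Nat.card X ≤ 1 := by
  classical
  rw [Finite.card_le_one_iff_subsingleton]
  by_contra hcon
  rw [not_subsingleton_iff_nontrivial] at hcon
  obtain ⟨a, b, hab⟩ := hcon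
  obtain ⟨ρ, hρ, hd⟩ := exists_derangement (H.map (MulAction.toPermHom A X)) (by
    intro x y
    obtain ⟨h, hh, e⟩ := trans_of_coprime htr H hco x y
    exact ⟨_, ⟨h, hh, rfl⟩, e⟩) hab
  obtain ⟨h, hh, rfl⟩ := hρ
  obtain ⟨x, hx⟩ := hfix h hh
  exact hd x hx

end act

section main
variable {K : Type*} [Field K] [IsAlgClosed K] [CharZero K] {V : Type*} [AddCommGroup V]
  [Module K V] [FiniteDimensional K V]
  {ω : LinearMap.BilinForm K V} {G : Set (Module.End K V)}
  {T T₁ : Set (Module.End K V ≃+* Module.End K V)} {p0 ε : Module.End K V} {W : Submodule K V}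

/-- The symmetries permute transitively the minimal ideals of a stable block. -/
lemma trans_min (D : MStr ω G T p0) (hε : Bl (AA G T p0) ε) (hst : ∀ τ ∈ T, τ ε = ε)
    {I J : Submodule K (Module.End K V)} (hI : IsMin (Lb G T p0 ε) I)
    (hJ : IsMin (Lb G T p0 ε) J) : ∃ τ ∈ T, ∀ y, y ∈ J ↔ τ.symm y ∈ I := by
  have hL := D.red_lb hε
  have hLt : ∀ τ ∈ T, ∀ x, τ x ∈ Lb G T p0 ε ↔ x ∈ Lb G T p0 ε := by
    intro τ hτ x
    have := D.lb_tw hε hτ (x := x)
    rwa [hst τ hτ] at this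
  let C : Submodule K (Module.End K V) :=
    { carrier := {x | x ∈ Lb G T p0 ε ∧ ∀ τ ∈ T, ∀ y ∈ I, x * τ y = τ y * x}
      add_mem' := by
        rintro a b ⟨ha, ha'⟩ ⟨hb, hb'⟩
        refine ⟨add_mem ha hb, fun τ hτ y hy => ?_⟩
        rw [add_mul, mul_add, ha' τ hτ y hy, hb' τ hτ y hy]
      zero_mem' := ⟨zero_mem _, fun τ hτ y hy => by simp⟩
      smul_mem' := by
        rintro c a ⟨ha, ha'⟩
        refine ⟨Submodule.smul_mem _ c ha, fun τ hτ y hy => ?_⟩
        rw [smul_mul_assoc, mul_smul_comm, ha' τ hτ y hy] }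
  have hCid : IsId (Lb G T p0 ε) C := by
    refine ⟨fun x hx => hx.1, ?_⟩
    rintro x hx y ⟨hy, hy'⟩
    refine ⟨D.lb_br hε hx hy, fun τ hτ z hz => ?_⟩
    have h1 := hy' τ hτ z hz
    have h2 := hy' τ hτ _ (hI.1.2 (τ.symm x) ((hLt _ (D.tinv τ hτ) x).mpr hx) z hz)
    rw [map_sub, map_mul, map_mul, RingEquiv.apply_symm_apply] at h2
    rw [mul_sub, sub_mul] at h2
    have e1 : (x * y - y * x) * τ z = x * (y * τ z) - y * x * τ z := by
      rw [sub_mul, mul_assoc]
    have e2 : τ z * (x * y - y * x) = τ z * x * y - (τ z * y) * x := by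
      rw [mul_sub, ← mul_assoc, ← mul_assoc]
    have h3 : y * (x * τ z) - y * (τ z * x) = x * τ z * y - τ z * x * y := h2
    have e0 : x * (y * τ z) = x * τ z * y := by rw [h1, mul_assoc]
    rw [e1, e2, e0, ← h1, ← sub_eq_zero]
    have e3 : x * τ z * y - y * x * τ z - (τ z * x * y - y * τ z * x) =
        (x * τ z * y - τ z * x * y) - (y * (x * τ z) - y * (τ z * x)) := by
      simp only [mul_assoc]; abel
    rw [e3, h3, sub_self]
  have hCT : ∀ τ ∈ T, ∀ x ∈ C, τ x ∈ C := by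
    rintro τ hτ x ⟨hx, hx'⟩
    refine ⟨(hLt τ hτ x).mpr hx, fun τ' hτ' y hy => ?_⟩
    have h1 := hx' (τ'.trans τ.symm) (D.tmul _ (D.tinv τ hτ) _ hτ') y hy
    have h2 := congrArg τ h1
    rw [map_mul, map_mul] at h2
    have e : τ ((τ'.trans τ.symm) y) = τ' y := by
      change τ (τ.symm (τ' y)) = τ' y
      rw [RingEquiv.apply_symm_apply]
    rwa [e] at h2
  rcases SP.tsmp D hε hst hCid hCT with h | h
  · have h1 : ∃ x ∈ J, ∃ τ ∈ T, ∃ y ∈ I, x * τ y ≠ τ y * x := by
      by_contra hcon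
      push Not at hcon
      apply hJ.2.1
      rw [eq_bot_iff, ← h]
      intro x hx
      exact ⟨hJ.1.1 hx, fun τ hτ y hy => hcon x hx τ hτ y hy⟩
    obtain ⟨x, hx, τ, hτ, y, hy, hne⟩ := h1
    obtain ⟨σ, hσ⟩ := D.semi τ hτ
    refine ⟨τ, hτ, ?_⟩
    have hI' : IsMin (Lb G T p0 ε) (imT τ hσ I) := hI.im (hLt τ hτ) hσ
    have hy' : τ y ∈ imT τ hσ I := by rw [mem_imT, RingEquiv.symm_apply_apply]; exact hy
    have hmem1 : x * τ y - τ y * x ∈ imT τ hσ I := hI'.1.2 x (hJ.1.1 hx) _ hy'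
    have hmem2 : x * τ y - τ y * x ∈ J := by
      have := hJ.1.2 (τ y) (hI'.1.1 hy') x hx
      rw [← neg_sub]
      exact neg_mem this
    have heq : J = imT τ hσ I := hJ.eq_of_mem hI' hmem2 hmem1 (sub_ne_zero.mpr hne)
    intro z
    rw [heq, mem_imT]
  · exfalso
    apply hI.2.1
    rw [eq_bot_iff]
    intro x hx
    rw [Submodule.mem_bot]
    apply hL.cen x (hI.1.1 hx)
    intro y hy
    rw [← h] at hy
    have := hy.2 _ D.tone x hx
    exact this.symm

open SE in
/-- Fixed points. -/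
lemma fix_min (D : MStr ω G T p0) (hε : Bl (AA G T p0) ε) (hst : ∀ τ ∈ T, τ ε = ε)
    (hns : ∀ p ∈ SC G T p0, p * ε ≠ 0 ∧ p * ε ≠ ε) {τ : Module.End K V ≃+* Module.End K V}
    (hτ : τ ∈ T)
    (hb : ∀ E : Finset (Module.End K V), ∃ τ' ∈ T, (∀ x ∈ E, τ' x = τ x) ∧
      ∃ p ∈ SC G T p0, (∃ g ∈ G, ∃ h ∈ G, g * h = 1 ∧ h * g = 1 ∧ g * τ' p * h = p) ∨
        ∃ u ∈ G, p * (u - 1) = u - 1 ∧ (u - 1) * p = 0 ∧ τ' u = u ∧
          ∀ τ'' ∈ T, (u - 1) * τ'' ε ≠ 0) :
    ∃ I, IsMin (Lb G T p0 ε) I ∧ ∀ y, y ∈ I ↔ τ.symm y ∈ I := by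
  classical
  have hx : ∀ I : Submodule K (Module.End K V), ∃ x, I ≠ ⊥ → x ∈ I ∧ x ≠ 0 := by
    intro I
    by_cases h : I = ⊥
    · exact ⟨0, fun h' => absurd h h'⟩
    · obtain ⟨x, hx, hx0⟩ := Submodule.exists_mem_ne_zero_of_ne_bot h
      exact ⟨x, fun _ => ⟨hx, hx0⟩⟩
  choose x hx using hx
  have hfinI : {I | IsMin (Lb G T p0 ε) I}.Finite := (D.red_lb hε).finite_min
  obtain ⟨τ', hτ', hE, P, hP, hcase⟩ := hb (hfinI.toFinset.image x)
  obtain ⟨σ, hσ⟩ := D.semi τ hτ
  obtain ⟨σ', hσ'⟩ := D.semi τ' hτ'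
  have hLt : ∀ τ ∈ T, ∀ x, τ x ∈ Lb G T p0 ε ↔ x ∈ Lb G T p0 ε := by
    intro τ hτ x
    have := D.lb_tw hε hτ (x := x)
    rwa [hst τ hτ] at this
  have s0 := mI_spec D hε hP (hns P hP)
  have s2 := mi_tw D hε hτ' hσ' s0
  rw [hst τ' hτ'] at s2
  generalize mI G T p0 ε P = I0 at s0 s2
  refine ⟨I0, s0.1, ?_⟩
  have s1 : IsMin (Lb G T p0 ε) (imT τ hσ I0) := s0.1.im (hLt τ hτ) hσ
  obtain ⟨hx1, hx2⟩ := hx I0 s0.1.2.1
  have hx3 : τ' (x I0) = τ (x I0) := by
    apply hE
    apply Finset.mem_image_of_mem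
    rw [Set.Finite.mem_toFinset]
    exact s0.1
  have k2 : imT τ hσ I0 = imT τ' hσ' I0 := by
    apply s1.eq_of_mem s2.1 (x := τ (x I0))
    · rw [mem_imT, RingEquiv.symm_apply_apply]; exact hx1
    · rw [mem_imT, ← hx3, RingEquiv.symm_apply_apply]; exact hx1
    · intro h
      apply hx2
      have := congrArg τ.symm h
      simpa using this
  have k3 : imT τ' hσ' I0 = I0 := by
    rcases hcase with ⟨g, hg, h, hh, hgh, hhg, hP'⟩ | ⟨u, hu, h1, h2, h3, h4⟩
    · have s4 := mi_conj D hε hg hh hgh hhg s2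
      rw [hP'] at s4
      exact mi_unique D hε hP (hns P hP) s4 s0
    · apply s2.1.eq_of_mem s0.1 (x := (u - 1) * ε)
      · rw [mem_imT]
        have : (u - 1) * ε = τ' ((u - 1) * ε) := by
          rw [map_mul, map_sub, h3, map_one, hst τ' hτ']
        rw [this, RingEquiv.symm_apply_apply]
        exact mem_N D hε hP hu h1 h2 s0
      · exact mem_N D hε hP hu h1 h2 s0
      · exact h4 _ D.tone
  intro y
  have h5 : y ∈ imT τ hσ I0 ↔ τ.symm y ∈ I0 := mem_imT
  rw [← h5, k2, k3]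

end main

section mat
variable {K : Type*} [Field K] [IsAlgClosed K] [CharZero K] {m : Type*} [Fintype m]
  [DecidableEq m] {Γ Γ₁ : Subgroup (Equiv.Perm (m → K))} {J : Matrix m m K}
  {G : Subgroup (Matrix.GeneralLinearGroup m K)} {π : Matrix m m K} {W : Submodule K (m → K)}

/-- The automorphism of the operators induced by a symmetry. -/
noncomputable def ph (D : IsStrongMTPair Γ J G π) (θ : Γ) :
    Module.End K (m → K) ≃+* Module.End K (m → K) :=
  GA.cE (D.semi θ.1 θ.2).choose_spec.1 (D.semi θ.1 θ.2).choose_spec.2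

lemma ph_apply (D : IsStrongMTPair Γ J G π) (θ : Γ) (x : Module.End K (m → K)) (v : m → K) :
    ph D θ x (θ.1 v) = θ.1 (x v) := GA.cE_apply _ _ x v

lemma ph_mem (D : IsStrongMTPair Γ J G π) (θ : Γ) : ph D θ ∈ TE Γ := ⟨θ.1, θ.2, ph_apply D θ⟩

lemma ph_eq (D : IsStrongMTPair Γ J G π) (θ : Γ)
    {τ : Module.End K (m → K) ≃+* Module.End K (m → K)}
    (hτ : ∀ (x : Module.End K (m → K)) (v : m → K), τ x (θ.1 v) = θ.1 (x v)) : τ = ph D θ := by
  apply RingEquiv.ext
  intro x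
  apply LinearMap.ext
  intro w
  obtain ⟨v, rfl⟩ := θ.1.surjective w
  rw [hτ, ph_apply]

lemma ph_one (D : IsStrongMTPair Γ J G π) : ph D 1 = RingEquiv.refl _ :=
  (ph_eq D 1 fun x v => rfl).symm

lemma ph_mul (D : IsStrongMTPair Γ J G π) (θ θ' : Γ) :
    ph D (θ * θ') = (ph D θ').trans (ph D θ) := by
  symm
  apply ph_eq
  intro x v
  change ph D θ (ph D θ' x) (θ.1 (θ'.1 v)) = θ.1 (θ'.1 (x v))
  rw [ph_apply, ph_apply]

/-- The local condition for the elements of a subgroup `Γ₁` of `Γ`. -/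
def LocOn (Γ₁ Γ : Subgroup (Equiv.Perm (m → K))) (G : Subgroup (Matrix.GeneralLinearGroup m K))
    (π : Matrix m m K) (W : Submodule K (m → K)) : Prop :=
  ∀ γ ∈ Γ₁, ∀ E : Finset (m → K), ∃ γ' ∈ Γ, (∀ v ∈ E, γ' v = γ v) ∧
    ∃ P : Matrix m m K, IsConj Γ G π P ∧
      ((∃ g ∈ G, ∀ v : m → K, (g : Matrix m m K).mulVec (γ' (P.mulVec v)) =
          P.mulVec ((g : Matrix m m K).mulVec (γ' v))) ∨
        ∃ u ∈ G, P * ((u : Matrix m m K) - 1) = (u : Matrix m m K) - 1 ∧
          ((u : Matrix m m K) - 1) * P = 0 ∧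
          (∀ v : m → K, (u : Matrix m m K).mulVec (γ' v) = γ' ((u : Matrix m m K).mulVec v)) ∧
          ∀ θ ∈ Γ, ∀ U : Submodule K (m → K), (∀ v, v ∈ W ↔ θ v ∈ U) →
            U.map ((u : Matrix m m K) - 1).mulVecLin ≠ ⊥)

lemma locOn_of (D : IsStrongMTPair Γ J G π) (hr : IsReductiveRep G) [Nonempty m]
    {ε : Module.End K (m → K)}
    (hW : Irr (AA (GE G) (TE Γ) (Matrix.toLin' π) : Set (Module.End K (m → K))) W)
    (hε : Bl (AA (GE G) (TE Γ) (Matrix.toLin' π)) ε) (hWε : InB ε W) (hΓ : Γ₁ ≤ Γ)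
    (hb : LocOn Γ₁ Γ G π W) {θ : Equiv.Perm (m → K)} (hθ : θ ∈ Γ₁)
    {τ : Module.End K (m → K) ≃+* Module.End K (m → K)}
    (hτ : ∀ (x : Module.End K (m → K)) (v : m → K), τ x (θ v) = θ (x v)) :
    ∀ E : Finset (Module.End K (m → K)), ∃ τ' ∈ TE Γ, (∀ x ∈ E, τ' x = τ x) ∧
      ∃ p ∈ SC (GE G) (TE Γ) (Matrix.toLin' π),
        (∃ g ∈ GE G, ∃ h ∈ GE G, g * h = 1 ∧ h * g = 1 ∧ g * τ' p * h = p) ∨
        ∃ u ∈ GE G, p * (u - 1) = u - 1 ∧ (u - 1) * p = 0 ∧ τ' u = u ∧
          ∀ τ'' ∈ TE Γ, (u - 1) * τ'' ε ≠ 0 := by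
  classical
  intro E
  let b : m → (m → K) := fun i => Pi.single i 1
  let E0 : Finset (m → K) := (Finset.univ.image b) ∪
    E.biUnion fun x => Finset.univ.image fun i => x (b i)
  obtain ⟨γ', hγ', hE, P, hP, hcase⟩ := hb θ hθ E0
  obtain ⟨σ, hadd, hσ⟩ := D.semi θ (hΓ hθ)
  obtain ⟨σ', hadd', hσ'⟩ := D.semi γ' hγ'
  have hagree : ∀ x ∈ E, GA.cE hadd' hσ' x = τ x := by
    intro x hx
    have h1 : ∀ i, γ' (b i) = θ (b i) := by
      intro i
      apply hE
      exact Finset.mem_union_left _ (Finset.mem_image_of_mem _ (Finset.mem_univ i))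
    have h2 : ∀ i, γ' (x (b i)) = θ (x (b i)) := by
      intro i
      apply hE
      apply Finset.mem_union_right
      rw [Finset.mem_biUnion]
      exact ⟨x, hx, Finset.mem_image_of_mem (fun i => x (b i)) (Finset.mem_univ i)⟩
    exact GA.agree hadd hσ hτ (GA.cE_apply hadd' hσ') h1 h2
  refine ⟨GA.cE hadd' hσ', ⟨γ', hγ', GA.cE_apply hadd' hσ'⟩, hagree,
    Matrix.toLin' P, GA.sc_of D hP, ?_⟩
  rcases hcase with ⟨g, hg, hgP⟩ | ⟨u, hu, hPu, huP, hcomm, hne⟩
  · left
    refine ⟨Matrix.toLin' (g : Matrix m m K), GA.toLin_mem hg, _, GA.toLin_mem (G.inv_mem hg),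
      GA.toLin_mul_inv g, GA.toLin_inv_mul g, ?_⟩
    have key : Matrix.toLin' (g : Matrix m m K) * GA.cE hadd' hσ' (Matrix.toLin' P) =
        Matrix.toLin' P * Matrix.toLin' (g : Matrix m m K) := by
      apply LinearMap.ext
      intro w
      obtain ⟨v, rfl⟩ : ∃ v, γ' v = w := γ'.surjective w
      rw [Module.End.mul_apply, GA.cE_apply, Module.End.mul_apply, Matrix.toLin'_apply,
        Matrix.toLin'_apply, Matrix.toLin'_apply, Matrix.toLin'_apply]
      exact hgP v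
    rw [key, mul_assoc, GA.toLin_mul_inv, mul_one]
  · right
    have hN : Matrix.toLin' (u : Matrix m m K) - 1 = ((u : Matrix m m K) - 1).mulVecLin := by
      apply LinearMap.ext
      intro v
      rw [LinearMap.sub_apply, Matrix.toLin'_apply, Matrix.mulVecLin_apply, Matrix.sub_mulVec,
        Matrix.one_mulVec, Module.End.one_apply]
    have hN' : Matrix.toLin' (u : Matrix m m K) - 1 = Matrix.toLin' ((u : Matrix m m K) - 1) := by
      rw [hN]; rfl
    refine ⟨Matrix.toLin' (u : Matrix m m K), GA.toLin_mem hu, ?_, ?_,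
      GA.ind_res (GA.cE_apply hadd' hσ') hcomm, ?_⟩
    · rw [hN', ← GA.toLin_mul, hPu]
    · rw [hN', ← GA.toLin_mul, huP, map_zero]
    · intro τ'' hτ'' h0
      obtain ⟨η, hη, hητ⟩ := hτ''
      obtain ⟨s, ha, hs⟩ := D.semi η hη
      have hεU : InB (τ'' ε) (MX.img ha hs W) := by
        intro v hv
        have h3 := hητ ε (η⁻¹ v)
        rw [perm_apply_inv] at h3
        rw [h3, hWε _ hv, perm_apply_inv]
      apply hne η hη (MX.img ha hs W) (fun v => (MX.img_mem ha hs W).symm)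
      rw [← hN, Submodule.eq_bot_iff]
      rintro _ ⟨v, hv, rfl⟩
      have h4 := congrArg (fun f : Module.End K (m → K) => f v) h0
      simp only [Module.End.mul_apply] at h4
      rw [hεU v hv] at h4
      exact h4

/-- The minimal ideals of the block. -/
abbrev MinI (Γ : Subgroup (Equiv.Perm (m → K))) (G : Subgroup (Matrix.GeneralLinearGroup m K))
    (π : Matrix m m K) (ε : Module.End K (m → K)) : Type _ :=
  {I : Submodule K (Module.End K (m → K)) //
    IsMin (Lb (GE G) (TE Γ) (Matrix.toLin' π) ε) I}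

lemma lt_iff (D : IsStrongMTPair Γ J G π) (hr : IsReductiveRep G) [Nonempty m]
    {ε : Module.End K (m → K)} (hε : Bl (AA (GE G) (TE Γ) (Matrix.toLin' π)) ε)
    (hst : ∀ τ ∈ TE Γ, τ ε = ε) (θ : Γ) (x : Module.End K (m → K)) :
    ph D θ x ∈ Lb (GE G) (TE Γ) (Matrix.toLin' π) ε ↔
      x ∈ Lb (GE G) (TE Γ) (Matrix.toLin' π) ε := by
  have := (mstr D hr).lb_tw hε (ph_mem D θ) (x := x)
  rwa [hst _ (ph_mem D θ)] at this

/-- The action of the symmetries on the minimal ideals. -/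
@[reducible] noncomputable def actX (D : IsStrongMTPair Γ J G π) (hr : IsReductiveRep G) [Nonempty m]
    {ε : Module.End K (m → K)} (hε : Bl (AA (GE G) (TE Γ) (Matrix.toLin' π)) ε)
    (hst : ∀ τ ∈ TE Γ, τ ε = ε) : MulAction Γ (MinI Γ G π ε) where
  smul θ I := ⟨imT (ph D θ) ((mstr D hr).semi _ (ph_mem D θ)).choose_spec I.1,
    I.2.im (lt_iff D hr hε hst θ) _⟩
  one_smul I := by
    apply Subtype.ext
    ext y
    change (ph D 1).symm y ∈ I.1 ↔ y ∈ I.1
    rw [ph_one]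
    rfl
  mul_smul θ θ' I := by
    apply Subtype.ext
    ext y
    change (ph D (θ * θ')).symm y ∈ I.1 ↔ (ph D θ').symm ((ph D θ).symm y) ∈ I.1
    rw [ph_mul]
    rfl

lemma mem_act (D : IsStrongMTPair Γ J G π) (hr : IsReductiveRep G) [Nonempty m]
    {ε : Module.End K (m → K)} (hε : Bl (AA (GE G) (TE Γ) (Matrix.toLin' π)) ε)
    (hst : ∀ τ ∈ TE Γ, τ ε = ε) (θ : Γ) (I : MinI Γ G π ε) (y : Module.End K (m → K)) :
    y ∈ ((actX D hr hε hst).toSMul.smul θ I).1 ↔ (ph D θ).symm y ∈ I.1 := Iff.rfl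

end mat

end IX

namespace SP

section stab
variable {K : Type*} [Field K] [IsAlgClosed K] [CharZero K] {V : Type*} [AddCommGroup V]
  [Module K V] [FiniteDimensional K V]
  {ω : LinearMap.BilinForm K V} {G : Set (Module.End K V)}
  {T : Set (Module.End K V ≃+* Module.End K V)} {p0 ε : Module.End K V} {W : Submodule K V}

/-- The number of the minimal ideals of a stable block. -/
theorem exact_stab (D : MStr ω G T p0) (hε : Bl (AA G T p0) ε)
    (hW : Irr (AA G T p0 : Set (Module.End K V)) W) (hWε : InB ε W)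
    (hst : ∀ τ ∈ T, τ ε = ε) (hsd : SD ω ε) {b : LinearMap.BilinForm K W}
    (hF : Fm ω (AA G T p0) ε W b) (halt : b.IsAlt) {N : Module.End K V}
    (hN : N ∈ Lb G T p0 ε) (hNN : N * N = 0) (hN0 : N ≠ 0) :
    ∃ k d : ℕ, Odd k ∧ finrank K W = d ^ k ∧ {I | IsMin (Lb G T p0 ε) I}.ncard = k ∧
      (k = 1 → Smp (Lb G T p0 ε)) := by
  have R := D.ssA.rs hε hW hWε
  have hLB := D.lb_le hε
  have hbr : ∀ x ∈ Lb G T p0 ε, ∀ y ∈ Lb G T p0 ε, x * y - y * x ∈ Lb G T p0 ε :=
    fun x hx y hy => D.lb_br hε hx hy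
  have hL : IrrSymp b ((Lb G T p0 ε).map (Rw W)) := by
    refine ⟨CL.map_br R hLB hbr, ?_, ?_⟩
    · rintro _ ⟨x, hx, rfl⟩
      have hx' := hLB hx
      exact (hF.sk x hx'.1 hx'.2).mp (D.lb_sk hε hsd hx)
    · intro U hU
      exact D.irr_lb hε hW hWε U fun x hx w hw => hU _ ⟨x, hx, rfl⟩ w hw
  have hAe : ∀ τ ∈ T, ∀ x ∈ Ae (AA G T p0) ε, τ x ∈ Ae (AA G T p0) ε := by
    rintro τ hτ x ⟨hx, hxe⟩
    refine ⟨D.tw_mem hτ hx, ?_⟩
    have h1 := congrArg τ hxe
    rwa [map_mul, hst τ hτ] at h1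
  have hLt : ∀ τ ∈ T, ∀ x, τ x ∈ Lb G T p0 ε ↔ x ∈ Lb G T p0 ε := by
    intro τ hτ x
    have := D.lb_tw hε hτ (x := x)
    rwa [hst τ hτ] at this
  let T' : Set (Module.End K W ≃+* Module.End K W) :=
    {t | ∃ τ, ∃ hτ : τ ∈ T, t = tw R τ (hAe τ hτ) (hAe _ (D.tinv τ hτ))}
  obtain ⟨n, hn, -, hrk⟩ := R.mult
  have hT' : ∀ t ∈ T', Tw ((Lb G T p0 ε).map (Rw W)) t := by
    rintro _ ⟨τ, hτ, rfl⟩
    obtain ⟨σ, hσ⟩ := D.semi τ hτ
    refine ⟨⟨σ, fun a φ => ?_⟩, fun φ => ?_, fun φ => ?_⟩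
    · rw [tw_apply, tw_apply, lf_smul, hσ, map_smul]
    · rw [tw_apply]
      have h1 := hrk _ (hAe τ hτ _ (lf_mem R φ))
      have h2 := hrk _ (lf_mem R φ)
      rw [D.rk τ hτ, h2, rho_lf] at h1
      exact (Nat.eq_of_mul_eq_mul_left hn h1).symm
    · rw [tw_apply]
      constructor
      · intro h
        have h1 := CL.mem_of_map R hLB (hAe τ hτ _ (lf_mem R φ)) h
        exact ⟨lf R φ, (hLt τ hτ _).mp h1, rho_lf R φ⟩
      · rintro ⟨x, hx, rfl⟩
        rw [lf_rho R (hLB hx)]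
        exact ⟨τ x, (hLt τ hτ _).mpr hx, rfl⟩
  have hS : TSmp ((Lb G T p0 ε).map (Rw W)) T' := by
    rintro M ⟨hM, hMi⟩ hMT
    rcases tsmp D hε hst (M := Lb G T p0 ε ⊓ M.comap (Rw W)) ⟨inf_le_left, by
      rintro x hx y ⟨hy, hyM⟩
      refine ⟨hbr x hx y hy, ?_⟩
      rw [SetLike.mem_coe, Submodule.mem_comap, map_sub, R.hom x (hLB hx) y (hLB hy),
        R.hom y (hLB hy) x (hLB hx)]
      exact hMi _ ⟨x, hx, rfl⟩ _ hyM⟩ (by
      rintro τ hτ x ⟨hx, hxM⟩
      refine ⟨(hLt τ hτ x).mpr hx, ?_⟩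
      have h1 := hMT _ ⟨τ, hτ, rfl⟩ _ hxM
      rw [tw_apply, lf_rho R (hLB hx)] at h1
      exact h1) with h | h
    · left
      rw [eq_bot_iff]
      intro z hz
      obtain ⟨y, hy, rfl⟩ := hM hz
      have h1 : y ∈ Lb G T p0 ε ⊓ M.comap (Rw W) := ⟨hy, hz⟩
      rw [h, Submodule.mem_bot] at h1
      rw [h1, map_zero]
      exact zero_mem _
    · right
      apply le_antisymm hM
      rintro _ ⟨y, hy, rfl⟩
      rw [← h] at hy
      exact hy.2
  have hx0 : Rw W N ≠ 0 := fun h => hN0 (R.inj N (hLB hN) h)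
  have hxx : Rw W N * Rw W N = 0 := by
    rw [← R.hom N (hLB hN) N (hLB hN), hNN, map_zero]
  obtain ⟨k, d, hk, hd, hc, hsimp⟩ := hL.exact_count hF.nd halt hT' hS ⟨N, hN, rfl⟩ hxx hx0
  refine ⟨k, d, hk, hd, ?_, fun hk1 => smp_of_map R hLB (hsimp hk1)⟩
  rw [← hc, IX.ncard_min_map R hLB hbr]

end stab

end SP

section mat
variable {K : Type*} [Field K] [IsAlgClosed K] [CharZero K] {m : Type*} [Fintype m]
  [DecidableEq m] {Γ Γ₁ : Subgroup (Equiv.Perm (m → K))} {J : Matrix m m K}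
  {G : Subgroup (Matrix.GeneralLinearGroup m K)} {π : Matrix m m K} {W : Submodule K (m → K)}

/-- A stable irreducible subrepresentation with an alternating form has a block with a simple Lie
algebra, if a subgroup of the symmetries, of index prime to `k` whenever the dimension is a `k`-th
power, `k` odd, `k ≥ 3`, satisfies the local condition. -/
theorem smp_index (D : IsStrongMTPair Γ J G π) (hr : IsReductiveRep G) [Nonempty m]
    (hso : IsSelfOpposite G π) {ε : Module.End K (m → K)}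
    (hW : Irr (AA (GE G) (TE Γ) (Matrix.toLin' π) : Set (Module.End K (m → K))) W)
    (hε : Bl (AA (GE G) (TE Γ) (Matrix.toLin' π)) ε) (hWε : InB ε W)
    (hs : HasSign J G W (-1)) (hst : ∀ θ ∈ Γ, ∀ v ∈ W, θ v ∈ W) (hΓ : Γ₁ ≤ Γ)
    (hloc : IX.LocOn Γ₁ Γ G π W)
    (hco : ∀ d k, Odd k → 3 ≤ k → finrank K W = d ^ k → Nat.Coprime k (Γ₁.relIndex Γ)) :
    Smp (Lb (GE G) (TE Γ) (Matrix.toLin' π) ε) := by
  classical
  have M := mstr D hr
  have hsd : SD (fJ J) ε := by
    by_contra h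
    have h1 := sign_eq D hr hso hW hε hWε hs (e' := 0) (Or.inl ⟨rfl, h⟩)
    omega
  obtain ⟨b, hF, hb⟩ := M.sd_form hε hsd hW hWε
  have halt : b.IsAlt := by
    rcases hb with h | h
    · have h1 := sign_eq D hr hso hW hε hWε hs (e' := 1) (Or.inr ⟨hsd, b, hF, Or.inl ⟨rfl, h⟩⟩)
      omega
    · exact h
  obtain ⟨N, hN, hNN, hrk⟩ := exists_full D hr hso hW hε hWε
  have hbl := SP.bl_stab D hr hW hε hWε hst
  have hN0 : N ≠ 0 := by
    intro h0
    have h1 := M.rkW_so (sop_of hso) hε hW hWε _ M.p0_mem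
    rw [h0, map_zero] at hrk
    have h2 : MTP.rk (0 : Module.End K W) = 0 := rk_eq_zero.mpr rfl
    have h3 : 0 < finrank K W := by
      have := hW.nontrivial
      exact Module.finrank_pos
    omega
  obtain ⟨k, d, hk, hd, hcard, hsimp⟩ := SP.exact_stab M hε hW hWε hbl hsd hF halt hN hNN hN0
  by_cases hk1 : k = 1
  · exact hsimp hk1
  · exfalso
    have hk3 : 3 ≤ k := by
      obtain ⟨l, hl⟩ := hk
      omega
    have hcop := hco d k hk hk3 hd
    let _ := IX.actX D hr hε hbl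
    have hfin : Finite (IX.MinI Γ G π ε) := (M.red_lb hε).finite_min
    have hcX : Nat.card (IX.MinI Γ G π ε) = k := hcard
    have htr : ∀ x y : IX.MinI Γ G π ε, ∃ a : Γ, a • x = y := by
      intro x y
      obtain ⟨τ, ⟨θ, hθ, hτ⟩, h⟩ := IX.trans_min M hε hbl x.2 y.2
      refine ⟨⟨θ, hθ⟩, Subtype.ext ?_⟩
      ext z
      rw [h z, IX.ph_eq D ⟨θ, hθ⟩ hτ]
      exact IX.mem_act D hr hε hbl ⟨θ, hθ⟩ x z
    have hle := IX.card_le_one htr (Γ₁.subgroupOf Γ) (by rw [hcX]; exact hcop) (by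
      intro h hh
      have hns : ∀ p ∈ SC (GE G) (TE Γ) (Matrix.toLin' π), p * ε ≠ 0 ∧ p * ε ≠ ε :=
        fun p hp => M.ns_so (sop_of hso) hε p hp
      obtain ⟨I, hI, hfix⟩ := IX.fix_min M hε hbl hns (IX.ph_mem D h)
        (IX.locOn_of D hr hW hε hWε hΓ hloc (Subgroup.mem_subgroupOf.mp hh) (IX.ph_apply D h))
      refine ⟨⟨I, hI⟩, Subtype.ext ?_⟩
      ext z
      rw [hfix z]
      exact IX.mem_act D hr hε hbl h ⟨I, hI⟩ z)
    omega

end mat

end AV
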