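import Pool.Agent.Helper43.RR.SG
import Pool.Agent.Helper43.RR.Ful
import Pool.Agent.Helper51.AV.SE
import Pool.Agent.Helper93.SR.Dec

/-!
A block stable under the symmetries, with an alternating form and a dimension which is not an odd
power, has a simple Lie algebra, if the cocharacter is conjugate to its opposite.
-/

set_option linter.unusedSimpArgs false
set_option linter.unusedSectionVars false
set_option linter.unusedVariables false

open Module

namespace AV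

open MTP UN MTPairs

namespace SP

section rs
variable {K : Type*} [Field K] {V : Type*} [AddCommGroup V] [Module K V] [FiniteDimensional K V]
  {W : Type*} [AddCommGroup W] [Module K W] [FiniteDimensional K W]
  {B L : Submodule K (Module.End K V)} {ρ : Module.End K V →ₗ[K] Module.End K W}

/-- The inverse of `ρ`. -/
noncomputable def lf (R : Rs B ρ) (φ : Module.End K W) : Module.End K V := (R.surj φ).choose

lemma lf_mem (R : Rs B ρ) (φ : Module.End K W) : lf R φ ∈ B := (R.surj φ).choose_spec.1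

lemma rho_lf (R : Rs B ρ) (φ : Module.End K W) : ρ (lf R φ) = φ := (R.surj φ).choose_spec.2

lemma eq_of (R : Rs B ρ) {x y : Module.End K V} (hx : x ∈ B) (hy : y ∈ B) (h : ρ x = ρ y) :
    x = y := sub_eq_zero.mp (R.inj _ (sub_mem hx hy) (by rw [map_sub, h, sub_self]))

lemma lf_rho (R : Rs B ρ) {x : Module.End K V} (hx : x ∈ B) : lf R (ρ x) = x :=
  eq_of R (lf_mem R _) hx (rho_lf R _)

lemma lf_mul (R : Rs B ρ) (φ ψ : Module.End K W) : lf R (φ * ψ) = lf R φ * lf R ψ :=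
  eq_of R (lf_mem R _) (R.mul _ (lf_mem R _) _ (lf_mem R _)) (by
    rw [rho_lf, R.hom _ (lf_mem R _) _ (lf_mem R _), rho_lf, rho_lf])

lemma lf_add (R : Rs B ρ) (φ ψ : Module.End K W) : lf R (φ + ψ) = lf R φ + lf R ψ :=
  eq_of R (lf_mem R _) (add_mem (lf_mem R _) (lf_mem R _)) (by
    rw [rho_lf, map_add, rho_lf, rho_lf])

lemma lf_smul (R : Rs B ρ) (c : K) (φ : Module.End K W) : lf R (c • φ) = c • lf R φ :=
  eq_of R (lf_mem R _) (B.smul_mem c (lf_mem R _)) (by rw [rho_lf, map_smul, rho_lf])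

/-- The symmetry of the endomorphisms of `W`. -/
noncomputable def tw (R : Rs B ρ) (τ : Module.End K V ≃+* Module.End K V)
    (h : ∀ x ∈ B, τ x ∈ B) (h' : ∀ x ∈ B, τ.symm x ∈ B) :
    Module.End K W ≃+* Module.End K W where
  toFun φ := ρ (τ (lf R φ))
  invFun φ := ρ (τ.symm (lf R φ))
  left_inv φ := by
    beta_reduce
    rw [lf_rho R (h _ (lf_mem R φ)), RingEquiv.symm_apply_apply, rho_lf]
  right_inv φ := by
    beta_reduce
    rw [lf_rho R (h' _ (lf_mem R φ)), RingEquiv.apply_symm_apply, rho_lf]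
  map_mul' φ ψ := by
    rw [lf_mul, map_mul, R.hom _ (h _ (lf_mem R φ)) _ (h _ (lf_mem R ψ))]
  map_add' φ ψ := by rw [lf_add, map_add, map_add]

lemma tw_apply (R : Rs B ρ) {τ : Module.End K V ≃+* Module.End K V}
    {h : ∀ x ∈ B, τ x ∈ B} {h' : ∀ x ∈ B, τ.symm x ∈ B} (φ : Module.End K W) :
    tw R τ h h' φ = ρ (τ (lf R φ)) := rfl

lemma smp_of_map (R : Rs B ρ) (hLB : L ≤ B) (hs : Smp (L.map ρ)) : Smp L := by
  intro M hM hMi
  rcases hs (M.map ρ) (Submodule.map_mono hM) (by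
    rintro _ ⟨x, hx, rfl⟩ _ ⟨y, hy, rfl⟩
    refine ⟨x * y - y * x, hMi x hx y hy, ?_⟩
    rw [map_sub, R.hom x (hLB hx) y (hLB (hM hy)), R.hom y (hLB (hM hy)) x (hLB hx)]) with h | h
  · left
    rw [eq_bot_iff]
    intro x hx
    have h1 : ρ x ∈ M.map ρ := ⟨x, hx, rfl⟩
    rw [h, Submodule.mem_bot] at h1
    rw [Submodule.mem_bot]
    exact R.inj x (hLB (hM hx)) h1
  · right
    apply le_antisymm hM
    intro x hx
    have h1 : ρ x ∈ L.map ρ := ⟨x, hx, rfl⟩
    rw [← h] at h1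
    obtain ⟨y, hy, hyx⟩ := h1
    rw [← eq_of R (hLB (hM hy)) (hLB hx) hyx]
    exact hy

end rs

section main
variable {K : Type*} [Field K] [IsAlgClosed K] [CharZero K] {V : Type*} [AddCommGroup V]
  [Module K V] [FiniteDimensional K V]
  {ω : LinearMap.BilinForm K V} {G : Set (Module.End K V)}
  {T : Set (Module.End K V ≃+* Module.End K V)} {p0 ε : Module.End K V} {W : Submodule K V}

open SE in
/-- A stable ideal containing the component of `p0` is everything. -/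
lemma eq_of_p0 (D : MStr ω G T p0) (hε : Bl (AA G T p0) ε) (hst : ∀ τ ∈ T, τ ε = ε)
    {M : Submodule K (Module.End K V)} (hM : IsId (Lb G T p0 ε) M)
    (hMT : ∀ τ ∈ T, ∀ x ∈ M, τ x ∈ M) {c : K} (hc : (p0 - c • 1) * ε ∈ M) :
    M = Lb G T p0 ε := by
  apply le_antisymm hM.1
  apply D.lb_gen hε
  · intro x hx y hy
    exact hM.2 x (hM.1 hx) y hy
  · rintro _ ⟨τ, hτ, g, hg, h, hh, hgh, hhg, rfl⟩ c' hc'
    obtain ⟨σ, hσ⟩ := D.semi τ hτ
    have h1 := hMT τ hτ _ hc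
    have e1 : τ ((p0 - c • 1) * ε) = (τ p0 - σ c • 1) * ε := by
      rw [map_mul, map_sub, hσ, map_one, hst τ hτ]
    rw [e1] at h1
    have h2 := D.lb_id_conj hε hM hg hh hgh hhg h1
    have e2 : g * ((τ p0 - σ c • 1) * ε) * h = (g * τ p0 * h - σ c • 1) * ε := by
      have k1 : ε * h = h * ε := hε.cen h (D.g_mem hh)
      calc g * ((τ p0 - σ c • 1) * ε) * h = g * (τ p0 - σ c • 1) * (ε * h) := by
            simp only [mul_assoc]
        _ = (g * (τ p0 - σ c • 1) * h) * ε := by rw [k1]; simp only [mul_assoc]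
        _ = _ := by
          rw [mul_sub, sub_mul, mul_smul_comm, smul_mul_assoc, mul_one, hgh]
    rw [e2] at h2
    rw [c_unique D hε hc' (hM.1 h2)]
    exact h2

open SE in
/-- A stable block is simple up to symmetries. -/
theorem tsmp (D : MStr ω G T p0) (hε : Bl (AA G T p0) ε) (hst : ∀ τ ∈ T, τ ε = ε)
    {M : Submodule K (Module.End K V)} (hM : IsId (Lb G T p0 ε) M)
    (hMT : ∀ τ ∈ T, ∀ x ∈ M, τ x ∈ M) : M = ⊥ ∨ M = Lb G T p0 ε := by
  have hL := D.red_lb hε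
  obtain ⟨c, hc⟩ := D.lb_p hε D.p0_mem
  have hpe : ε * p0 = p0 * ε := hε.cen p0 (D.sc_mem D.p0_mem)
  have hsq : (p0 - c • 1) * ε * ((p0 - c • 1) * ε) =
      (c * (1 - c)) • ε + ((1 - 2 * c) • (1 : Module.End K V)) * ((p0 - c • 1) * ε) := by
    have e1 : (p0 - c • 1) * ε * ((p0 - c • 1) * ε) = (p0 - c • 1) * (p0 - c • 1) * ε := by
      have : ε * ((p0 - c • 1) * ε) = (p0 - c • 1) * ε := by
        rw [← mul_assoc, mul_sub, hpe, mul_smul_comm, mul_one, sub_mul, sub_mul,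
          smul_mul_assoc, smul_mul_assoc, one_mul, mul_assoc, hε.idem]
      rw [mul_assoc, this, mul_assoc]
    rw [e1]
    simp only [mul_sub, sub_mul, smul_mul_assoc, mul_smul_comm, mul_one, one_mul, D.idem]
    module
  rcases sq_dich hL hM hc (w := (1 - 2 * c) • 1) (c := (c * (1 - c)) • ε)
    (by intro x hx; simp) (by
      intro x hx
      have hxA := (D.lb_le hε hx).1
      rw [smul_mul_assoc, mul_smul_comm, hε.cen x hxA]) hsq with h | h
  · exact Or.inr (eq_of_p0 D hε hst hM hMT h)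
  · left
    have horth : orth (Lb G T p0 ε) M = Lb G T p0 ε := by
      apply eq_of_p0 D hε hst (orth_isId hL.br hM) _ h
      intro τ hτ z hz
      have hzL := hz.1
      have hτz : τ z ∈ Lb G T p0 ε := by
        have := D.lb_tw1 hτ hzL
        rwa [hst τ hτ] at this
      rw [hL.mem_orth_iff hM hτz]
      intro x hx
      have h1 := (hL.mem_orth_iff hM hzL).mp hz (τ.symm x) (hMT _ (D.tinv τ hτ) x hx)
      have h2 := congrArg τ h1
      rwa [map_mul, map_mul, RingEquiv.apply_symm_apply] at h2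
    rw [eq_bot_iff]
    intro x hx
    rw [Submodule.mem_bot]
    apply hL.cen x (hM.1 hx)
    intro y hy
    have hy' := hy
    rw [← horth] at hy'
    exact (hL.mem_orth_iff hM hy).mp hy' x hx

/-- **Stable blocks with an alternating form.** -/
theorem smp_odd (D : MStr ω G T p0) (hε : Bl (AA G T p0) ε)
    (hW : Irr (AA G T p0 : Set (Module.End K V)) W) (hWε : InB ε W)
    (hst : ∀ τ ∈ T, τ ε = ε) (hsd : SD ω ε) {b : LinearMap.BilinForm K W}
    (hF : Fm ω (AA G T p0) ε W b) (halt : b.IsAlt)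
    (hodd : ∀ d k, Odd k → 3 ≤ k → finrank K W ≠ d ^ k) {N : Module.End K V}
    (hN : N ∈ Lb G T p0 ε) (hNN : N * N = 0) (hN0 : N ≠ 0) : Smp (Lb G T p0 ε) := by
  have R := D.ssA.rs hε hW hWε
  have hLB := D.lb_le hε
  have hbr : ∀ x ∈ Lb G T p0 ε, ∀ y ∈ Lb G T p0 ε, x * y - y * x ∈ Lb G T p0 ε :=
    fun x hx y hy => D.lb_br hε hx hy
  have hL : IrrSymp b ((Lb G T p0 ε).map (Rw W)) := by
    refine ⟨CL.map_br R hLB hbr, ?_, ?_⟩
    · rintro _ ⟨x, hx, rfl⟩
      have hx' := hLB hx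
      exact (hF.sk x hx'.1 hx'.2).mp (D.lb_sk hε hsd hx)
    · intro U hU
      exact D.irr_lb hε hW hWε U fun x hx w hw => hU _ ⟨x, hx, rfl⟩ w hw
  have hAe : ∀ τ ∈ T, ∀ x ∈ Ae (AA G T p0) ε, τ x ∈ Ae (AA G T p0) ε := by
    rintro τ hτ x ⟨hx, hxe⟩
    refine ⟨D.tw_mem hτ hx, ?_⟩
    have h1 := congrArg τ hxe
    rwa [map_mul, hst τ hτ] at h1
  have hLt : ∀ τ ∈ T, ∀ x, τ x ∈ Lb G T p0 ε ↔ x ∈ Lb G T p0 ε := by
    intro τ hτ x
    have := D.lb_tw hε hτ (x := x)
    rwa [hst τ hτ] at this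
  let T' : Set (Module.End K W ≃+* Module.End K W) :=
    {t | ∃ τ, ∃ hτ : τ ∈ T, t = tw R τ (hAe τ hτ) (hAe _ (D.tinv τ hτ))}
  obtain ⟨n, hn, -, hrk⟩ := R.mult
  have hT' : ∀ t ∈ T', Tw ((Lb G T p0 ε).map (Rw W)) t := by
    rintro _ ⟨τ, hτ, rfl⟩
    obtain ⟨σ, hσ⟩ := D.semi τ hτ
    refine ⟨⟨σ, fun a φ => ?_⟩, fun φ => ?_, fun φ => ?_⟩
    · rw [tw_apply, tw_apply, lf_smul, hσ, map_smul]
    · rw [tw_apply]
      have h1 := hrk _ (hAe τ hτ _ (lf_mem R φ))
      have h2 := hrk _ (lf_mem R φ)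
      rw [D.rk τ hτ, h2, rho_lf] at h1
      exact (Nat.eq_of_mul_eq_mul_left hn h1).symm
    · rw [tw_apply]
      constructor
      · intro h
        have h1 := CL.mem_of_map R hLB (hAe τ hτ _ (lf_mem R φ)) h
        exact ⟨lf R φ, (hLt τ hτ _).mp h1, rho_lf R φ⟩
      · rintro ⟨x, hx, rfl⟩
        rw [lf_rho R (hLB hx)]
        exact ⟨τ x, (hLt τ hτ _).mpr hx, rfl⟩
  have hS : TSmp ((Lb G T p0 ε).map (Rw W)) T' := by
    rintro M ⟨hM, hMi⟩ hMT
    rcases tsmp D hε hst (M := Lb G T p0 ε ⊓ M.comap (Rw W)) ⟨inf_le_left, by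
      rintro x hx y ⟨hy, hyM⟩
      refine ⟨hbr x hx y hy, ?_⟩
      rw [SetLike.mem_coe, Submodule.mem_comap, map_sub, R.hom x (hLB hx) y (hLB hy),
        R.hom y (hLB hy) x (hLB hx)]
      exact hMi _ ⟨x, hx, rfl⟩ _ hyM⟩ (by
      rintro τ hτ x ⟨hx, hxM⟩
      refine ⟨(hLt τ hτ x).mpr hx, ?_⟩
      have h1 := hMT _ ⟨τ, hτ, rfl⟩ _ hxM
      rw [tw_apply, lf_rho R (hLB hx)] at h1
      exact h1) with h | h
    · left
      rw [eq_bot_iff]
      intro z hz
      obtain ⟨y, hy, rfl⟩ := hM hz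
      have h1 : y ∈ Lb G T p0 ε ⊓ M.comap (Rw W) := ⟨hy, hz⟩
      rw [h, Submodule.mem_bot] at h1
      rw [h1, map_zero]
      exact zero_mem _
    · right
      apply le_antisymm hM
      rintro _ ⟨y, hy, rfl⟩
      rw [← h] at hy
      exact hy.2
  have hx0 : Rw W N ≠ 0 := fun h => hN0 (R.inj N (hLB hN) h)
  have hxx : Rw W N * Rw W N = 0 := by
    rw [← R.hom N (hLB hN) N (hLB hN), hNN, map_zero]
  obtain ⟨k, d, s, hk, hd, -, hsimp⟩ := hL.exact hF.nd halt hT' hS ⟨N, hN, rfl⟩ hxx hx0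
  have hk1 : k = 1 := by
    by_contra hne
    obtain ⟨l, hl⟩ := hk
    exact hodd d k ⟨l, hl⟩ (by omega) hd
  exact smp_of_map R hLB (hsimp hk1)

end main

end SP

section mat
variable {K : Type*} [Field K] [IsAlgClosed K] [CharZero K] {m : Type*} [Fintype m]
  [DecidableEq m] {Γ : Subgroup (Equiv.Perm (m → K))} {J : Matrix m m K}
  {G : Subgroup (Matrix.GeneralLinearGroup m K)} {π : Matrix m m K} {W : Submodule K (m → K)}

/-- The block of a stable subspace is stable. -/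
lemma SP.bl_stab (D : IsStrongMTPair Γ J G π) (hr : IsReductiveRep G) [Nonempty m]
    {ε : Module.End K (m → K)}
    (hW : Irr (AA (GE G) (TE Γ) (Matrix.toLin' π) : Set (Module.End K (m → K))) W)
    (hε : Bl (AA (GE G) (TE Γ) (Matrix.toLin' π)) ε) (hWε : InB ε W)
    (hst : ∀ θ ∈ Γ, ∀ v ∈ W, θ v ∈ W) : ∀ τ ∈ TE Γ, τ ε = ε := by
  rintro τ hτ
  have M := mstr D hr
  have hε' := M.tw_bl hτ hε
  obtain ⟨θ, hθ, h⟩ := hτ
  by_contra hne
  have h0 := Bl.orth hε' hε hne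
  obtain ⟨w, hw, hw0⟩ := W.ne_bot_iff.mp hW.ne
  apply hw0
  have h1 : θ⁻¹ w ∈ W := hst _ (Γ.inv_mem hθ) w hw
  have h2 := h ε (θ⁻¹ w)
  rw [hWε _ h1, perm_apply_inv] at h2
  have h3 := congrArg (fun f : Module.End K (m → K) => f w) h0
  simp only [Module.End.mul_apply, LinearMap.zero_apply] at h3
  rw [hWε w hw, h2] at h3
  exact h3

/-- A stable irreducible subrepresentation with an alternating form whose dimension is not an odd
power has a block with a simple Lie algebra. -/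
theorem smp_stab (D : IsStrongMTPair Γ J G π) (hr : IsReductiveRep G) [Nonempty m]
    (hso : IsSelfOpposite G π) {ε : Module.End K (m → K)}
    (hW : Irr (AA (GE G) (TE Γ) (Matrix.toLin' π) : Set (Module.End K (m → K))) W)
    (hε : Bl (AA (GE G) (TE Γ) (Matrix.toLin' π)) ε) (hWε : InB ε W)
    (hs : HasSign J G W (-1)) (hst : ∀ θ ∈ Γ, ∀ v ∈ W, θ v ∈ W)
    (hodd : ∀ d k, Odd k → 3 ≤ k → finrank K W ≠ d ^ k) :
    Smp (Lb (GE G) (TE Γ) (Matrix.toLin' π) ε) := by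
  have M := mstr D hr
  have hsd : SD (fJ J) ε := by
    by_contra h
    have h1 := sign_eq D hr hso hW hε hWε hs (e' := 0) (Or.inl ⟨rfl, h⟩)
    omega
  obtain ⟨b, hF, hb⟩ := M.sd_form hε hsd hW hWε
  have halt : b.IsAlt := by
    rcases hb with h | h
    · have h1 := sign_eq D hr hso hW hε hWε hs (e' := 1) (Or.inr ⟨hsd, b, hF, Or.inl ⟨rfl, h⟩⟩)
      omega
    · exact h
  obtain ⟨N, hN, hNN, hrk⟩ := exists_full D hr hso hW hε hWε
  refine SP.smp_odd M hε hW hWε (SP.bl_stab D hr hW hε hWε hst) hsd hF halt hodd hN hNN ?_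
  intro h0
  have h1 := M.rkW_so (sop_of hso) hε hW hWε _ M.p0_mem
  rw [h0, map_zero] at hrk
  have h2 : MTP.rk (0 : Module.End K W) = 0 := rk_eq_zero.mpr rfl
  have h3 : 0 < finrank K W := by
    have := hW.nontrivial
    exact Module.finrank_pos
  omega

end mat

end AV
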